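import Pool.Agent.Y136.Zg.Card

set_option autoImplicit false

namespace Pool.Agent.Results.MP_cfafa5_al.DifferentCardinalities

open Pool.Agent.Results.MP_cfafa5_al.NotHomeomorphic

/-- There is a von Neumann regular ring `R` of characteristic two whose left Ziegler spectrum has
at most continuum many points (it injects into `ℝ`) while its right Ziegler spectrum has at least
`2 ^ continuum` points (the set of all subsets of `ℝ` injects into it).  So there are no injective
map from the right to the left spectrum and no surjective map from the left to the right
spectrum; in particular the two spectra are not homeomorphic. -/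
theorem result : ∃ (R : Type) (_ : Ring R),
    (∀ a : R, ∃ x : R, a * x * a = a) ∧ (∀ a : R, a + a = 0) ∧
    (∃ Ψ : LeftZg R → ℝ, Function.Injective Ψ) ∧
    (∃ Φ : Set ℝ → RightZg R, Function.Injective Φ) ∧
    (∀ h : RightZg R → LeftZg R, ¬ Function.Injective h) ∧
    (∀ h : LeftZg R → RightZg R, ¬ Function.Surjective h) :=
  ⟨B, inferInstance, B_regular, Pool.Agent.Y136.Zg.two_torsion, Pool.Agent.Y136.Zg.left_small,
    Pool.Agent.Y136.Zg.right_large, no_injection, Pool.Agent.Y136.Zg.no_surjection⟩

end Pool.Agent.Results.MP_cfafa5_al.DifferentCardinalities
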